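import Pool.Agent.Helper71.UT2.PB
import Pool.Agent.Helper71.PHX.Draw
import Pool.Agent.Helper71.PV.Log
import Pool.Agent.Helper93.PH.WkOf
import Pool.Agent.Helper23.UT.CountPW
import Pool.Agent.Helper95.HH.Exist
import Pool.Agent.Helper95.UP.Loop
import Pool.Agent.Helper95.UP.SegPath
import Pool.Agent.Helper95.UP.Assemble

/-!
# UT, regime II (MP_0dbcb7_co)

`regII`: 1-planar-critical graphs all of whose threads have between `20` and `2 ^ s` edges are `c s ^ c`-planar.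
-/

set_option autoImplicit false

open Set
open Pool.Agent.Helper83.OP Pool.Agent.Helper93.HH Pool.Agent.Helper95.HH Pool.Agent.Helper95.UP

namespace Pool.Agent.Helper71.UT2

theorem log_aux (c t : ℕ) (hc : c ≤ t) (ht : 13 ≤ t) :
    64 * (Nat.log 2 (c * t * 20 * (c * t + 1) + 2) + 13) ≤ 2 ^ t := by
  have h1 : t + 1 ≤ 2 ^ t := Nat.lt_two_pow_self
  have h2 : c * t * 20 * (c * t + 1) + 2 ≤ 2 ^ (4 * t + 5) := by
    have e1 : c * t ≤ 2 ^ t * 2 ^ t := Nat.mul_le_mul (by omega) (by omega)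
    have e2 : c * t + 1 ≤ 2 ^ t * 2 ^ t := by
      have : (c + 1) * t ≤ 2 ^ t * 2 ^ t := Nat.mul_le_mul (by omega) (by omega)
      nlinarith
    have e3 : c * t * 20 * (c * t + 1) ≤ 2 ^ t * 2 ^ t * 20 * (2 ^ t * 2 ^ t) :=
      Nat.mul_le_mul (Nat.mul_le_mul_right _ e1) e2
    have e4 : 2 ^ t * 2 ^ t * 20 * (2 ^ t * 2 ^ t) = 20 * 2 ^ (4 * t) := by
      have : 2 ^ (4 * t) = 2 ^ t * 2 ^ t * (2 ^ t * 2 ^ t) := by
        rw [← pow_add, ← pow_add]
        congr 1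
        omega
      rw [this]
      ring
    have e5 : 1 ≤ 2 ^ (4 * t) := Nat.one_le_two_pow
    have e6 : 2 ^ (4 * t + 5) = 32 * 2 ^ (4 * t) := by
      rw [pow_add]
      ring
    omega
  have h3 : Nat.log 2 (c * t * 20 * (c * t + 1) + 2) ≤ 4 * t + 5 := by
    calc Nat.log 2 (c * t * 20 * (c * t + 1) + 2) ≤ Nat.log 2 (2 ^ (4 * t + 5)) :=
          Nat.log_mono_right h2
      _ = 4 * t + 5 := Nat.log_pow (by norm_num) _
  have h4 : ∀ n, 13 ≤ n → 64 * (4 * n + 5 + 13) ≤ 2 ^ n := by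
    intro n hn
    induction n, hn using Nat.le_induction with
    | base => norm_num
    | succ n hn ih =>
      rw [pow_succ]
      omega
  have h5 := h4 t ht
  omega

theorem regII : ∃ c : ℕ, ∀ (s : ℕ) (V : Type) [Fintype V] (G : SimpleGraph V), ¬ KPl 1 G →
    (∀ e ∈ G.edgeSet, KPl 1 (G.deleteEdges {e})) → ThrLen G 20 (2 ^ s) →
    KPl (c * (s + 1) ^ c) G := by
  classical
  obtain ⟨cd, hdraw⟩ := Pool.Agent.Helper71.PHX.draw_PH_p
  obtain ⟨c0, hcount⟩ := Pool.Agent.Helper23.UT.count_PW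
  obtain ⟨c1, hc1⟩ : ∃ c1, c1 = c0 + 1 := ⟨_, rfl⟩
  obtain ⟨cl, hlog⟩ := Pool.Agent.Helper71.PV.main_log
  -- the parameters
  obtain ⟨tt, htt⟩ : ∃ tt : ℕ → ℕ, ∀ s, tt s = s + c1 + 15 := ⟨_, fun _ => rfl⟩
  obtain ⟨Kc, hKc⟩ : ∃ Kc : ℕ → ℕ, ∀ s,
      Kc s = c1 * tt s * (c1 * tt s * 20 * (c1 * tt s + 1)) := ⟨_, fun _ => rfl⟩
  obtain ⟨Cc, hCc⟩ : ∃ Cc : ℕ → ℕ, ∀ s, Cc s = c1 * tt s * (c1 * tt s + 1) := ⟨_, fun _ => rfl⟩
  obtain ⟨b1, hb1⟩ : ∃ b1 : ℕ → ℕ, ∀ s,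
      b1 s = cd * (Cc s + (Kc s + 16) + 1) ^ cd := ⟨_, fun _ => rfl⟩
  obtain ⟨b2, hb2⟩ : ∃ b2 : ℕ → ℕ, ∀ s,
      b2 s = cl * ((c1 * tt s * 20 + 1) * (s + 1)) := ⟨_, fun _ => rfl⟩
  have hPtt : PB tt :=
    ((PB.id.add (PB.const c1)).add (PB.const 15)).mono fun s => by rw [htt]
  have hP0 : PB fun s => c1 * tt s := (PB.const c1).mul hPtt
  have hP1 : PB fun s => c1 * tt s + 1 := hP0.add (PB.const 1)
  have hPK : PB Kc := (hP0.mul ((hP0.mul (PB.const 20)).mul hP1)).mono fun s => by rw [hKc]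
  have hPC : PB Cc := (hP0.mul hP1).mono fun s => by rw [hCc]
  have hPb1 : PB b1 := ((PB.const cd).mul (((hPC.add (hPK.add (PB.const 16))).add
    (PB.const 1)).pow cd)).mono fun s => by rw [hb1]
  have hPb2 : PB b2 := ((PB.const cl).mul (((hP0.mul (PB.const 20)).add (PB.const 1)).mul
    (PB.id.add (PB.const 1)))).mono fun s => by rw [hb2]
  obtain ⟨c, hc⟩ := (hPb1.add hPb2).add (PB.const 16)
  refine ⟨c, fun s V _ G h1 hcrit hthr => ?_⟩
  have hcs := hc s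
  simp only at hcs
  -- closed threads
  by_cases hcyc : ∀ (x : V) (D : G.Walk x x), D.IsCycle →
      ∃ u ∈ D.support, ∃ v ∈ D.support, u ≠ v ∧ 3 ≤ deg G u ∧ 3 ≤ deg G v
  swap
  · push Not at hcyc
    obtain ⟨x, D, hD, hno⟩ := hcyc
    refine kpl_le (loop16 G hcrit D hD ?_) (by omega)
    rintro ⟨u, hu, v, hv, huv, h2, h3⟩
    exact absurd (hno u hu v hv huv h2) (by omega)
  have hdeg := crit_deg G h1 hcrit
  obtain ⟨t, ht⟩ : ∃ t, t = tt s := ⟨_, rfl⟩
  have ht' : t = s + c1 + 15 := by rw [ht, htt]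
  -- no hubs
  by_cases hU : ∀ v, deg G v ≤ c1 * t * 20
  · refine kpl_le (hlog (c1 * t * 20) (2 ^ s) V G h1 hcrit ?_) ?_
    · intro u v p hp huv hu hv hin
      obtain ⟨h2, h3⟩ := hthr u v p hp huv hu hv hin
      refine ⟨h3, (hU u).trans ?_⟩
      exact Nat.le_mul_of_pos_right _ (by omega)
    · rw [Nat.log_pow (by norm_num), ht]
      have := hb2 s
      omega
  push Not at hU
  obtain ⟨a, ha⟩ := hU
  have hlow : ∀ u v (p : G.Walk u v), p.IsPath → u ≠ v → 3 ≤ deg G u → 3 ≤ deg G v →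
      (∀ x ∈ p.support, x ≠ u → x ≠ v → deg G x = 2) → 20 ≤ p.length :=
    fun u v p hp huv hu hv hin => (hthr u v p hp huv hu hv hin).1
  have hst : 2 ^ s ≤ 2 ^ t := Nat.pow_le_pow_right (by norm_num) (by omega)
  have h20t : 20 ≤ 2 ^ t := by
    calc 20 ≤ 2 ^ 5 := by norm_num
      _ ≤ 2 ^ t := Nat.pow_le_pow_right (by norm_num) (by omega)
  have hup : ∀ u v (p : G.Walk u v), p.IsPath →
      (∀ x ∈ p.support, x ≠ u → x ≠ v → deg G x = 2) → p.length ≤ 2 ^ t :=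
    fun u v p hp hin => path_le G _ hdeg hcyc
      (fun u v p hp huv hu hv hin => (hthr u v p hp huv hu hv hin).2.trans hst) p hp hin
  have hc1t : 1 ≤ c1 * t := Nat.mul_pos (by omega) (by omega)
  have hct : c0 * t ≤ c1 * t := Nat.mul_le_mul_right _ (by omega)
  obtain ⟨P, Q, hP, hQ, D, hDG, hDr, hDL, hDK, hDU, hOk, hGOk⟩ :=
    exists_hd G 20 (2 ^ t) (c1 * t) (by norm_num) h20t (by omega) hdeg hlow hup hcyc
  have hKr : D.Kh * D.r = c1 * t * 20 := by rw [hDK, hDr]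
  by_contra hcon
  have hBad : Pool.Agent.Helper83.PH.BadW D (Kc s + 16) (c1 * t * (c1 * t * 20)) := by
    refine hdraw (Cc s) (Kc s + 16) (by omega) V P Q D 20 (c1 * t * (c1 * t * 20))
      ⟨hOk, hGOk, by norm_num, ?_, ?_, ?_, ?_⟩ ?_
    · rw [hKr, hCc, ← ht]
      have : c1 * t * 1 ≤ c1 * t * (c1 * t + 1) := Nat.mul_le_mul_left _ (by omega)
      omega
    · rw [hCc, ← ht]
      have e1 : c1 * t * (c1 * t * 20) = c1 * t * (c1 * t) * 20 := by ring
      rw [e1]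
      exact Nat.mul_le_mul_right _ (Nat.mul_le_mul_left _ (by omega))
    · intro u v p
      revert p
      rw [hDG]
      exact hlow u v
    · rw [hDG]
      exact hcrit
    · rw [hDG]
      intro h
      refine hcon (kpl_le h ?_)
      have := hb1 s
      omega
  have hwk : Pool.Agent.Helper63.PH.Wk D (Kc s) (c1 * t) := by
    refine Pool.Agent.Helper93.PH.wk_of_badW hOk (by omega) ?_ hBad
    rw [hKr]
  obtain ⟨b, hb⟩ : ∃ b, G.Adj a b := by
    have : (G.neighborSet a).Nonempty := by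
      rw [← Set.ncard_pos (Set.toFinite _)]
      unfold deg at ha
      omega
    exact this
  have haU : a ∈ D.U := by rw [hDU]; exact ha
  obtain ⟨pos, γ, hd, hcr⟩ := hcrit s(a, b) hb
  refine hcount V P Q D (G.deleteEdges {s(a, b)}) s(a, b) (CrossRel γ) t (Kc s) (c1 * t) hOk hGOk
    ⟨a, haU⟩ ?_ (by omega) hDL.le ?_ ?_ ?_ ?_ hct ?_ hwk
  · refine ⟨by rw [hDG], by rw [hDG]; exact hb, ?_, crossRel_symm γ, ?_,
      planarLike_of_drawing _ pos γ hd⟩
    · intro h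
      exact hOk.N_U a b h haU
    · intro f hf
      have hf' : f ∈ G.edgeSet ∧ f ≠ s(a, b) := by
        rw [SimpleGraph.edgeSet_deleteEdges] at hf
        exact ⟨hf.1, hf.2⟩
      refine le_trans (Set.ncard_le_ncard ?_ (Set.toFinite _))
        (partner_le G s(a, b) γ hcr f hf'.1 hf'.2)
      rintro f' ⟨h2, h3⟩
      rw [SimpleGraph.edgeSet_deleteEdges] at h2
      exact ⟨h2.1, h2.2, h3⟩
  · rw [hKr]
    exact log_aux c1 t (by omega) (by omega)
  · -- all threads are long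
    constructor
    · intro p
      have := hOk.w_ge p
      omega
    · intro q
      have := hGOk.wq_ge q
      omega
    · intro u v W huv hu hv
      have := hOk.thr_ge u v W huv hu hv
      omega
  · intro p
    have := hOk.w_ge p
    omega
  · rw [hKr]
    omega
  · rw [hKr, hKc, ← ht]
    exact Nat.mul_le_mul_right _ hct

end Pool.Agent.Helper71.UT2
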