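import Pool.Agent.Helper71.UT2.RegI
import Pool.Agent.Helper71.UT2.RegII
import Pool.Agent.Helper23.HM.S2
import Pool.Agent.Helper23.HM.S4
import Pool.Agent.Helper43.HM.S1
import Pool.Agent.Helper43.HM.S3

/-!
# UT: the uniform theorem (MP_0dbcb7_co)

`main_UT`: if `G` is `m`-planar-critical and every thread has at least `r ≥ 1` edges and at most `(m r + 1) ^ A / m` edges,
then `G` is `m c (A + 1) ^ c`-planar. Any degrees, any number of vertices.
-/

set_option autoImplicit false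

open Set
open Pool.Agent.Helper83.OP Pool.Agent.Helper93.HH Pool.Agent.Helper95.HH Pool.Agent.Helper95.UP
open Pool.Agent.Helper23.HM Pool.Agent.Helper43.HM

namespace Pool.Agent.Helper71.UT2

/-- subdividing a 1-planar-critical graph -/
theorem sd_crit {V : Type} [Finite V] (n m : ℕ) (hn : 1 ≤ n) (hm : m ≤ n) (G : SimpleGraph V)
    (hcrit : ∀ e ∈ G.edgeSet, KPl m (G.deleteEdges {e})) :
    ∀ e ∈ (Sd n G).edgeSet, KPl 1 ((Sd n G).deleteEdges {e}) := by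
  intro e he
  obtain ⟨f, t, hf, ht, rfl⟩ := Sd_edge.1 he
  exact s3 n hn G f hf t ht (s2 n hn _ (kpl_le (hcrit f hf) hm))

theorem main_UT1 : ∃ c : ℕ, ∀ (A r : ℕ) (V : Type) [Fintype V] (G : SimpleGraph V), 1 ≤ r →
    ¬ KPl 1 G → (∀ e ∈ G.edgeSet, KPl 1 (G.deleteEdges {e})) → ThrLen G r ((r + 1) ^ A) →
    KPl (c * (A + 1) ^ c) G := by
  classical
  obtain ⟨c1, hI⟩ := regI
  obtain ⟨c2, hII⟩ := regII
  -- the parameter of regime II
  obtain ⟨sf, hsf⟩ : ∃ sf : ℕ → ℕ, ∀ A, sf A = 5 + (c1 + (A + 1) * c1) * A := ⟨_, fun _ => rfl⟩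
  have hPs : PB sf := ((PB.const 5).add (((PB.const c1).add ((PB.id.add (PB.const 1)).mul
    (PB.const c1))).mul PB.id)).mono fun A => by rw [hsf]
  have hP : PB fun A => c1 * (A + 1) ^ c1 + (c2 * (sf A + 1) ^ c2) * 20 + 20 :=
    (((PB.const c1).mul ((PB.id.add (PB.const 1)).pow c1)).add
      (((PB.const c2).mul ((hPs.add (PB.const 1)).pow c2)).mul (PB.const 20))).add (PB.const 20)
  obtain ⟨c, hc⟩ := hP
  refine ⟨c, fun A r V _ G hr h1 hcrit hthr => ?_⟩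
  have hcA := hc A
  simp only at hcA
  by_cases hrc : c1 * (A + 1) ^ c1 ≤ r
  · exact kpl_le (hI A r V G hrc h1 hcrit hthr) (by omega)
  push Not at hrc
  -- regime II: subdivide 20 times
  by_cases h20 : KPl 1 (Sd 20 G)
  · exact kpl_le (s1 20 1 (by norm_num) G h20) (by omega)
  have hlen : (r + 1) ^ A * 20 ≤ 2 ^ sf A := by
    have e1 : r + 1 ≤ 2 ^ (c1 + (A + 1) * c1) := by
      calc r + 1 ≤ c1 * (A + 1) ^ c1 := hrc
        _ ≤ 2 ^ c1 * (2 ^ (A + 1)) ^ c1 :=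
          Nat.mul_le_mul Nat.lt_two_pow_self.le
            (Nat.pow_le_pow_left Nat.lt_two_pow_self.le _)
        _ = 2 ^ (c1 + (A + 1) * c1) := by rw [← pow_mul, ← pow_add]
    calc (r + 1) ^ A * 20 ≤ (2 ^ (c1 + (A + 1) * c1)) ^ A * 2 ^ 5 :=
          Nat.mul_le_mul (Nat.pow_le_pow_left e1 _) (by norm_num)
      _ = 2 ^ sf A := by rw [hsf, ← pow_mul, ← pow_add, Nat.add_comm]
  have hthr' : ThrLen (Sd 20 G) 20 (2 ^ sf A) := by
    have h2 : ThrLen (Sd 20 G) (20 * r) (20 * (r + 1) ^ A) := s4 20 (by norm_num) G r _ hthr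
    intro u v p hp huv hu hv hin
    have h3 := h2 u v p hp huv hu hv hin
    exact ⟨by omega, by omega⟩
  have h3 := hII (sf A) (SV V 20) (Sd 20 G) h20
    (sd_crit 20 1 (by norm_num) (by norm_num) G hcrit) hthr'
  exact kpl_le (s1 20 _ (by norm_num) G h3) (by omega)

/-- **Theorem (UT).** -/
theorem main_UT : ∃ c : ℕ, ∀ (A m r : ℕ) (V : Type) [Fintype V] (G : SimpleGraph V), 1 ≤ m →
    1 ≤ r → ¬ KPl m G → (∀ e ∈ G.edgeSet, KPl m (G.deleteEdges {e})) →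
    (∀ u v (p : G.Walk u v), p.IsPath → u ≠ v → 3 ≤ deg G u → 3 ≤ deg G v →
      (∀ x ∈ p.support, x ≠ u → x ≠ v → deg G x = 2) →
      r ≤ p.length ∧ m * p.length ≤ (m * r + 1) ^ A) →
    KPl (m * (c * (A + 1) ^ c)) G := by
  classical
  obtain ⟨c, hc⟩ := main_UT1
  refine ⟨c, fun A m r V _ G hm hr h1 hcrit hthr => ?_⟩
  rw [Nat.mul_comm]
  refine s1 m _ hm G ?_
  have hmr : 1 ≤ m * r := Nat.mul_pos hm hr
  have a1 : ¬ KPl 1 (Sd m G) := by
    intro h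
    apply h1
    have := s1 m 1 hm G h
    rwa [Nat.one_mul] at this
  have a3 : ThrLen (Sd m G) (m * r) (m * ((m * r + 1) ^ A / m)) := by
    refine s4 m hm G r _ ?_
    intro u v p hp huv hu hv hin
    obtain ⟨h2, h3⟩ := hthr u v p hp huv hu hv hin
    refine ⟨h2, ?_⟩
    rw [Nat.le_div_iff_mul_le hm, Nat.mul_comm]
    exact h3
  refine hc A (m * r) (SV V m) (Sd m G) hmr a1 (sd_crit m m hm le_rfl G hcrit) ?_
  intro u v p hp huv hu hv hin
  have h2 := a3 u v p hp huv hu hv hin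
  exact ⟨h2.1, h2.2.trans (Nat.mul_div_le _ _)⟩

end Pool.Agent.Helper71.UT2
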