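import Mathlib

/-!
# Polynomially bounded functions
-/

set_option autoImplicit false

namespace Pool.Agent.Helper71.UT2

/-- polynomially bounded functions -/
def PB (f : ℕ → ℕ) : Prop := ∃ c : ℕ, ∀ n, f n ≤ c * (n + 1) ^ c

theorem PB.const (a : ℕ) : PB fun _ => a :=
  ⟨a, fun n => Nat.le_mul_of_pos_right _ (Nat.pow_pos (by omega))⟩

theorem PB.id : PB fun n => n := ⟨1, fun n => by
  show n ≤ 1 * (n + 1) ^ 1
  rw [pow_one]
  omega⟩

theorem PB.mono {f g : ℕ → ℕ} (hg : PB g) (h : ∀ n, f n ≤ g n) : PB f := by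
  obtain ⟨c, hc⟩ := hg
  exact ⟨c, fun n => (h n).trans (hc n)⟩

theorem PB.le {f : ℕ → ℕ} {a b : ℕ} (h : ∀ n, f n ≤ a * (n + 1) ^ b) : PB f :=
  ⟨a + b, fun n => (h n).trans (Nat.mul_le_mul (Nat.le_add_right _ _)
    (Nat.pow_le_pow_right (by omega) (Nat.le_add_left _ _)))⟩

theorem PB.add {f g : ℕ → ℕ} (hf : PB f) (hg : PB g) : PB fun n => f n + g n := by
  obtain ⟨c, hc⟩ := hf
  obtain ⟨d, hd⟩ := hg
  refine ⟨c + d, fun n => ?_⟩
  have h1 : c * (n + 1) ^ c ≤ c * (n + 1) ^ (c + d) :=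
    Nat.mul_le_mul_left _ (Nat.pow_le_pow_right (by omega) (Nat.le_add_right _ _))
  have h2 : d * (n + 1) ^ d ≤ d * (n + 1) ^ (c + d) :=
    Nat.mul_le_mul_left _ (Nat.pow_le_pow_right (by omega) (Nat.le_add_left _ _))
  have h3 := hc n
  have h4 := hd n
  show f n + g n ≤ (c + d) * (n + 1) ^ (c + d)
  rw [Nat.add_mul]
  omega

theorem PB.mul {f g : ℕ → ℕ} (hf : PB f) (hg : PB g) : PB fun n => f n * g n := by
  obtain ⟨c, hc⟩ := hf
  obtain ⟨d, hd⟩ := hg
  refine PB.le (a := c * d) (b := c + d) fun n => ?_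
  calc f n * g n ≤ (c * (n + 1) ^ c) * (d * (n + 1) ^ d) := Nat.mul_le_mul (hc n) (hd n)
    _ = c * d * (n + 1) ^ (c + d) := by rw [pow_add]; ring

theorem PB.pow {f : ℕ → ℕ} (hf : PB f) (k : ℕ) : PB fun n => f n ^ k := by
  induction k with
  | zero => simpa using PB.const 1
  | succ k ih =>
    have := ih.mul hf
    simpa [pow_succ] using this

theorem PB.comp {f g : ℕ → ℕ} (hg : PB g) (hf : PB f) : PB fun n => g (f n) := by
  obtain ⟨c, hc⟩ := hg
  have h1 : PB fun n => c * (f n + 1) ^ c := (PB.const c).mul ((hf.add (PB.const 1)).pow c)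
  exact h1.mono fun n => hc _

end Pool.Agent.Helper71.UT2
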