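import Pool.Agent.Helper71.UT2.PB
import Pool.Agent.Helper71.PHX.Draw
import Pool.Agent.Helper71.PV.Poly
import Pool.Agent.Helper93.PH.WkOf
import Pool.Agent.Helper23.UT.CountPHX
import Pool.Agent.Helper95.HH.Exist
import Pool.Agent.Helper95.UP.Loop
import Pool.Agent.Helper95.UP.SegPath
import Pool.Agent.Helper95.UP.Assemble

/-!
# UT, regime I (MP_0dbcb7_co)

`regI`: 1-planar-critical graphs all of whose threads have between `r` and `(r + 1) ^ A` edges, `r` larger than a fixed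
polynomial of `A`, are `c (A + 1) ^ c`-planar. (Adapted from `Helper93/PH/Main`.)
-/

set_option autoImplicit false

open Set
open Pool.Agent.Helper83.OP Pool.Agent.Helper93.HH Pool.Agent.Helper95.HH Pool.Agent.Helper95.UP

namespace Pool.Agent.Helper71.UT2

/-- a twelfth root -/
theorem exists_root (r : ℕ) (hr : 1 ≤ r) : ∃ s, 1 ≤ s ∧ s ^ 12 ≤ r ∧ r < (s + 1) ^ 12 := by
  classical
  have hb : ∃ s, r < (s + 1) ^ 12 := ⟨r, (Nat.lt_succ_self r).trans_le
    (Nat.le_self_pow (by norm_num) _)⟩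
  refine ⟨Nat.find hb, ?_, ?_, Nat.find_spec hb⟩
  · by_contra h
    have h0 : Nat.find hb = 0 := by omega
    have := Nat.find_spec hb
    rw [h0] at this
    norm_num at this
    omega
  · rcases Nat.eq_zero_or_pos (Nat.find hb) with h0 | h0
    · rw [h0]
      norm_num
    · have := Nat.find_min hb (m := Nat.find hb - 1) (by omega)
      rw [not_lt, Nat.sub_add_cancel h0] at this
      exact this

theorem regI : ∃ c : ℕ, ∀ (A r : ℕ) (V : Type) [Fintype V] (G : SimpleGraph V),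
    c * (A + 1) ^ c ≤ r → ¬ KPl 1 G → (∀ e ∈ G.edgeSet, KPl 1 (G.deleteEdges {e})) →
    ThrLen G r ((r + 1) ^ A) → KPl (c * (A + 1) ^ c) G := by
  classical
  obtain ⟨cd, hdraw⟩ := Pool.Agent.Helper71.PHX.draw_PH_p
  obtain ⟨c1, hcount⟩ := Pool.Agent.Helper23.UT.count_PH_x
  obtain ⟨cp, hpoly⟩ := Pool.Agent.Helper71.PV.main_poly
  -- the parameters
  obtain ⟨Kc, hKc⟩ : ∃ Kc : ℕ → ℕ, ∀ A, Kc A = c1 * (36 * (A + 1) + 1) := ⟨_, fun _ => rfl⟩
  obtain ⟨s0, hs0d⟩ : ∃ s0 : ℕ → ℕ, ∀ A, s0 A = c1 * (36 * (A + 1) + 1) ^ 2 := ⟨_, fun _ => rfl⟩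
  obtain ⟨b1, hb1⟩ : ∃ b1 : ℕ → ℕ, ∀ A,
      b1 A = cd * (1 + (Kc A + 16) + 1) ^ cd := ⟨_, fun _ => rfl⟩
  obtain ⟨b2, hb2⟩ : ∃ b2 : ℕ → ℕ, ∀ A,
      b2 A = cp * ((A + 1) * (1 + 1)) ^ 7 := ⟨_, fun _ => rfl⟩
  obtain ⟨b3, hb3⟩ : ∃ b3 : ℕ → ℕ, ∀ A, b3 A = (s0 A + 3) ^ 12 := ⟨_, fun _ => rfl⟩
  have hA1 : PB fun A => 36 * (A + 1) + 1 :=
    ((PB.const 36).mul (PB.id.add (PB.const 1))).add (PB.const 1)
  have hPK : PB Kc := ((PB.const c1).mul hA1).mono fun A => by rw [hKc]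
  have hPs : PB s0 := ((PB.const c1).mul (hA1.pow 2)).mono fun A => by rw [hs0d]
  have hPb1 : PB b1 := ((PB.const cd).mul ((((PB.const 1).add (hPK.add (PB.const 16))).add
    (PB.const 1)).pow cd)).mono fun A => by rw [hb1]
  have hPb2 : PB b2 := ((PB.const cp).mul (((PB.id.add (PB.const 1)).mul
    (PB.const (1 + 1))).pow 7)).mono fun A => by rw [hb2]
  have hPb3 : PB b3 := ((hPs.add (PB.const 3)).pow 12).mono fun A => by rw [hb3]
  obtain ⟨c, hc⟩ := ((hPb1.add hPb2).add hPb3).add (PB.const 16)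
  refine ⟨c, fun A r V _ G hrc h1 hcrit hthr => ?_⟩
  have hcs := hc A
  simp only at hcs
  have hb3A := hb3 A
  have hb2A := hb2 A
  have hb1A := hb1 A
  have hrr : (s0 A + 3) ^ 12 ≤ r := by omega
  have hr : 1 ≤ r := le_trans (Nat.one_le_pow _ _ (by omega)) hrr
  -- closed threads
  by_cases hcyc : ∀ (x : V) (D : G.Walk x x), D.IsCycle →
      ∃ u ∈ D.support, ∃ v ∈ D.support, u ≠ v ∧ 3 ≤ deg G u ∧ 3 ≤ deg G v
  swap
  · push Not at hcyc
    obtain ⟨x, D, hD, hno⟩ := hcyc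
    refine kpl_le (loop16 G hcrit D hD ?_) (by omega)
    rintro ⟨u, hu, v, hv, huv, h2, h3⟩
    exact absurd (hno u hu v hv huv h2) (by omega)
  have hdeg := crit_deg G h1 hcrit
  -- the parameter s
  obtain ⟨s, hs1, hsr, hrs⟩ := exists_root r hr
  have hs0 : s0 A + 3 ≤ s + 1 := by
    by_contra hcon
    push Not at hcon
    have h2 : (s + 1) ^ 12 ≤ (s0 A + 3) ^ 12 := Nat.pow_le_pow_left (by omega) _
    omega
  have hs2 : 2 ≤ s := by omega
  have h8 : 2 ≤ s ^ 8 := hs2.trans (Nat.le_self_pow (by norm_num) _)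
  have h812 : s ^ 8 ≤ s ^ 12 := Nat.pow_le_pow_right (by omega) (by norm_num)
  have hL : (r + 1) ^ A ≤ (r + 1) ^ (A + 1) := Nat.pow_le_pow_right (by omega) (by omega)
  have hlow' : ∀ u v (p : G.Walk u v), p.IsPath → u ≠ v → 3 ≤ deg G u → 3 ≤ deg G v →
      (∀ x ∈ p.support, x ≠ u → x ≠ v → deg G x = 2) → s ^ 12 ≤ p.length :=
    fun u v p hp huv hu hv hin => hsr.trans (hthr u v p hp huv hu hv hin).1
  have hlow : ∀ u v (p : G.Walk u v), p.IsPath → u ≠ v → 3 ≤ deg G u → 3 ≤ deg G v →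
      (∀ x ∈ p.support, x ≠ u → x ≠ v → deg G x = 2) → s ^ 8 ≤ p.length :=
    fun u v p hp huv hu hv hin => h812.trans (hlow' u v p hp huv hu hv hin)
  have hup : ∀ u v (p : G.Walk u v), p.IsPath →
      (∀ x ∈ p.support, x ≠ u → x ≠ v → deg G x = 2) → p.length ≤ (r + 1) ^ (A + 1) :=
    fun u v p hp hin => path_le G _ hdeg hcyc
      (fun u v p hp huv hu hv hin => (hthr u v p hp huv hu hv hin).2.trans hL) p hp hin
  -- no hubs
  by_cases hU : ∀ v, deg G v ≤ 1 * s ^ 8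
  · refine kpl_le (hpoly A 1 V G r h1 hcrit hthr (fun v => ?_)) (by omega)
    have := hU v
    omega
  push Not at hU
  obtain ⟨a, ha⟩ := hU
  have hLr : s ^ 8 ≤ (r + 1) ^ (A + 1) := by
    calc s ^ 8 ≤ r + 1 := by omega
      _ ≤ (r + 1) ^ (A + 1) := Nat.le_self_pow (by omega) _
  obtain ⟨P, Q, hP, hQ, D, hDG, hDr, hDL, hDK, hDU, hOk, hGOk⟩ :=
    exists_hd G (s ^ 8) ((r + 1) ^ (A + 1)) 1 h8 hLr (by omega) hdeg hlow hup hcyc
  have hKr : D.Kh * D.r = s ^ 8 := by rw [hDK, hDr, Nat.one_mul]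
  by_contra hcon
  have hBad : Pool.Agent.Helper83.PH.BadW D (Kc A + 16) (s ^ 12) := by
    refine hdraw 1 (Kc A + 16) (by omega) V P Q D (s ^ 12) (s ^ 12)
      ⟨hOk, hGOk, ?_, ?_, ?_, ?_, ?_⟩ ?_
    · exact h8.trans h812
    · rw [hKr, Nat.one_mul]
      exact h812
    · rw [Nat.one_mul]
    · intro u v p
      revert p
      rw [hDG]
      exact hlow' u v
    · rw [hDG]
      exact hcrit
    · rw [hDG]
      intro h
      exact hcon (kpl_le h (by omega))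
  have hwk : Pool.Agent.Helper63.PH.Wk D (Kc A) (s ^ 4) := by
    refine Pool.Agent.Helper93.PH.wk_of_badW hOk (by omega) ?_ hBad
    rw [hKr, ← pow_add]
  rw [hKc] at hwk
  obtain ⟨b, hb⟩ : ∃ b, G.Adj a b := by
    have : (G.neighborSet a).Nonempty := by
      rw [← Set.ncard_pos (Set.toFinite _)]
      unfold deg at ha
      omega
    exact this
  have haU : a ∈ D.U := by rw [hDU]; exact ha
  obtain ⟨pos, γ, hd, hcr⟩ := hcrit s(a, b) hb
  refine hcount (36 * (A + 1)) V P Q D (G.deleteEdges {s(a, b)}) s(a, b) (CrossRel γ) s hOk hGOk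
    ⟨a, haU⟩ ?_ ?_ hKr ?_ ?_ hwk
  · refine ⟨by rw [hDG], by rw [hDG]; exact hb, ?_, crossRel_symm γ, ?_,
      planarLike_of_drawing _ pos γ hd⟩
    · intro h
      exact hOk.N_U a b h haU
    · intro f hf
      have hf' : f ∈ G.edgeSet ∧ f ≠ s(a, b) := by
        rw [SimpleGraph.edgeSet_deleteEdges] at hf
        exact ⟨hf.1, hf.2⟩
      refine le_trans (Set.ncard_le_ncard ?_ (Set.toFinite _))
        (partner_le G s(a, b) γ hcr f hf'.1 hf'.2)
      rintro f' ⟨h2, h3⟩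
      rw [SimpleGraph.edgeSet_deleteEdges] at h2
      exact ⟨h2.1, h2.2, h3⟩
  · rw [← hs0d]
    omega
  · -- the bound for the lengths
    rw [hDL]
    have h2 : s + 1 ≤ s ^ 2 := by
      have : s ^ 2 = s * s := sq s
      rw [this]
      nlinarith
    have h3 : r + 1 ≤ s ^ 36 := by
      calc r + 1 ≤ (s + 1) ^ 12 := hrs
        _ ≤ (s ^ 2) ^ 12 := Nat.pow_le_pow_left h2 _
        _ = s ^ 24 := by rw [← pow_mul]
        _ ≤ s ^ 36 := Nat.pow_le_pow_right (by omega) (by norm_num)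
    calc (r + 1) ^ (A + 1) ≤ (s ^ 36) ^ (A + 1) := Nat.pow_le_pow_left h3 _
      _ = s ^ (36 * (A + 1)) := by rw [← pow_mul]
  · -- all threads are long
    constructor
    · intro p
      have := hOk.w_ge p
      rwa [hDr] at this
    · intro q
      have := hGOk.wq_ge q
      rwa [hDr] at this
    · intro u v W huv hu hv
      have := hOk.thr_ge u v W huv hu hv
      rwa [hDr] at this

end Pool.Agent.Helper71.UT2
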